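import Pool.Agent.Y691.QT.Conv

set_option autoImplicit false

/-! Project QT, task T10: the family of twists (assuming task T10a). -/

namespace Pool.Agent.Y691.QT

open Pool.Agent.Y19.QT
open Complex UpperHalfPlane MatrixGroups CongruenceSubgroup
open Pool.Agent.H306R2.RZ (js)
open Pool.Agent.Y705.QT (js_mul js_one js_abs_le cheb_bound)

/-- the statement of T10a -/
def S_T10a : Prop :=
  ∀ (a b : ℤ) (N : ℕ) (f : CuspForm (Gamma0 N : Subgroup (GL (Fin 2) ℝ)) 2),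
    IsFormOf a b N f → ∀ m : ℕ, Odd m → Squarefree m → m.Coprime N →
    ∃ w : ℝ, w ^ 2 = 1 ∧ ∀ z : ℂ, 0 < z.re →
      ∑' n : ℕ, coef f n * js n m * cexp (-(2 * Real.pi * n * (1 / z) / (m * Real.sqrt N : ℝ))) =
        w * z ^ 2 *
          ∑' n : ℕ, coef f n * js n m * cexp (-(2 * Real.pi * n * z / (m * Real.sqrt N : ℝ)))

/-- decomposition of a squarefree integer -/
theorem decomp {Q : ℕ} (hQ0 : 0 < Q) (h2 : 2 ∣ Q) (d : ℤ) (hd : Squarefree d) :
    ∃ (m : ℕ) (g : ℤ), d = g * (ZMod.χ₄ m * m) ∧ Odd m ∧ Squarefree m ∧ m.Coprime Q ∧ g ≠ 0 ∧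
      (∀ p : ℕ, p.Prime → (p : ℤ) ∣ g → p ∣ Q) ∧ |g| ≤ Q := by
  have hn : Squarefree d.natAbs := Int.squarefree_natAbs.2 hd
  have hd0 : d ≠ 0 := hd.ne_zero
  have hn0 : d.natAbs ≠ 0 := Int.natAbs_ne_zero.2 hd0
  set n := d.natAbs with hndef
  set r := Nat.gcd n Q with hr
  have hr0 : 0 < r := Nat.gcd_pos_of_pos_right _ hQ0
  obtain ⟨m, hm⟩ : r ∣ n := Nat.gcd_dvd_left n Q
  have hmQ : m.Coprime Q := by
    refine Nat.coprime_of_dvd fun p hp h1 h2 => ?_
    have h3 : p ∣ r := Nat.dvd_gcd (hm ▸ dvd_mul_of_dvd_right h1 r) h2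
    have h4 : p * p ∣ n := by
      rw [hm]
      exact mul_dvd_mul h3 h1
    exact hp.not_isUnit (hn p h4)
  have hodd : Odd m := by
    rw [← Nat.not_even_iff_odd]
    intro he
    have := Nat.Coprime.eq_one_of_dvd (Nat.Coprime.coprime_dvd_right h2 hmQ).symm he.two_dvd
    omega
  have hchi : (ZMod.χ₄ m) * (ZMod.χ₄ m) = 1 := by
    rw [ZMod.χ₄_nat_eq_if_mod_four]
    have := Nat.odd_iff.1 hodd
    rw [if_neg (by omega)]
    split_ifs <;> norm_num
  have hmsq : Squarefree m := hn.squarefree_of_dvd (hm ▸ dvd_mul_left m r)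
  have hchiabs : (ZMod.χ₄ m).natAbs = 1 := by
    rcases mul_self_eq_one_iff.1 hchi with h | h <;> rw [h] <;> rfl
  refine ⟨m, d.sign * ZMod.χ₄ m * r, ?_, hodd, hmsq, hmQ, ?_, ?_, ?_⟩
  · calc d = d.sign * (n : ℤ) := by rw [hndef]; exact (Int.sign_mul_natAbs d).symm
      _ = d.sign * (r * m : ℤ) := by rw [hm]; push_cast; rfl
      _ = d.sign * (ZMod.χ₄ m * ZMod.χ₄ m) * (r * m : ℤ) := by rw [hchi]; ring
      _ = _ := by ring
  · refine mul_ne_zero (mul_ne_zero ?_ ?_) (by exact_mod_cast hr0.ne')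
    · exact fun h => hd0 (Int.sign_eq_zero_iff_zero.1 h)
    · intro h
      rw [h] at hchi
      norm_num at hchi
  · intro p hp h
    have h1 : p ∣ (d.sign * ZMod.χ₄ m * r).natAbs := Int.natCast_dvd.1 h
    rw [Int.natAbs_mul, Int.natAbs_mul, hchiabs, Int.natAbs_sign_of_ne_zero hd0, Int.natAbs_natCast,
      one_mul, one_mul] at h1
    exact h1.trans (Nat.gcd_dvd_right n Q)
  · have h1 : (d.sign * ZMod.χ₄ m * r).natAbs = r := by
      rw [Int.natAbs_mul, Int.natAbs_mul, hchiabs, Int.natAbs_sign_of_ne_zero hd0,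
        Int.natAbs_natCast, one_mul, one_mul]
    rw [Int.abs_eq_natAbs, h1]
    exact_mod_cast Nat.gcd_le_right n hQ0

theorem T10_of (hT : S_T10a) (a b : ℤ) (hab : 4 * a ^ 3 + 27 * b ^ 2 ≠ 0)
    (hf : TwistsModular a b) :
    ∃ (Q : ℕ) (lam : ℕ → ℝ), Nonempty (Twists Q lam) ∧
      (∀ p : ℕ, p.Prime → (p : ℤ) ∣ 2 * (4 * a ^ 3 + 27 * b ^ 2) → p ∣ Q) ∧
      ∀ p : ℕ, p.Prime → ¬ p ∣ Q → lam p = ap a b p / Real.sqrt p := by
  classical
  have hf' : ∀ g : ℤ, ∃ (N : ℕ) (f : CuspForm (Gamma0 N : Subgroup (GL (Fin 2) ℝ)) 2),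
      g ≠ 0 → IsFormOf (a * g ^ 2) (b * g ^ 3) N f := by
    intro g
    by_cases hg : g = 0
    · exact ⟨1, 0, fun h => absurd hg h⟩
    · obtain ⟨N, f, h⟩ := hf g hg
      exact ⟨N, f, fun _ => h⟩
  choose N f hF using hf'
  set Q : ℕ := 30030 * (2 * (4 * a ^ 3 + 27 * b ^ 2)).natAbs with hQdef
  have hQ0 : 0 < Q := by
    rw [hQdef]
    refine Nat.mul_pos (by norm_num) (Int.natAbs_pos.2 (mul_ne_zero two_ne_zero hab))
  have h30 : 30030 ∣ Q := Dvd.intro _ rfl
  have h2 : 2 ∣ Q := (by norm_num : 2 ∣ 30030).trans h30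
  have hQ : ∀ p : ℕ, p.Prime → (p : ℤ) ∣ 2 * (4 * a ^ 3 + 27 * b ^ 2) → p ∣ Q := by
    intro p _ h
    exact dvd_mul_of_dvd_right (Int.natCast_dvd.1 h) _
  have hF1 : IsFormOf (a * 1 ^ 2) (b * 1 ^ 3) (N 1) (f 1) := hF 1 one_ne_zero
  have hone : ∀ p : ℕ, p.Prime → (p : ℤ) ∣ 1 → p ∣ Q := by
    intro p hp h
    exact absurd (Int.natCast_dvd.1 h) (by simpa using hp.ne_one)
  have hlam : ∀ p : ℕ, p.Prime → ¬ p ∣ Q → lamQ (f 1) Q p = ap a b p / Real.sqrt p := by
    intro p hp hpQ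
    have h1 := (nf_good_eq hF1 hF1 hQ hone hp hpQ).2.2.1
    have h3 := co_pow (Q := Q) hp 0
    rw [zero_add, pow_one, if_neg hpQ] at h3
    unfold lamQ
    rw [h1, h3, mul_one]
  refine ⟨Q, lamQ (f 1) Q, ?_, hQ, hlam⟩
  have hH : Hecke Q (lamQ (f 1) Q) := by
    have hm := lamQ_mul hF1 Q
    refine ⟨hQ0, ?_, hm.zero, hm.one, hm.mul, ?_, ?_, ?_⟩
    · intro p hp h16
      refine Nat.dvd_trans ?_ h30
      interval_cases p <;> first | (norm_num; done) | (exact absurd hp (by norm_num))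
    · intro p k hp hpQ
      unfold lamQ
      rw [co_pow hp, if_pos hpQ, mul_zero]
    · intro p k hp hpQ
      have hn := (nf_good_eq hF1 hF1 hQ hone hp hpQ).1
      have hr := nf_rec hF1 hp k
      rw [if_neg hn] at hr
      have c : ∀ j : ℕ, co Q (p ^ j) = 1 := by
        intro j
        rcases j with _ | j
        · simp [co_one]
        · rw [co_pow hp, if_neg hpQ]
      have c1 : co Q p = 1 := by simpa using c 1
      unfold lamQ
      rw [c, c, c, c1, hr]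
      ring
    · intro p hp
      by_cases hpQ : p ∣ Q
      · have h3 := co_pow (Q := Q) hp 0
        rw [zero_add, pow_one, if_pos hpQ] at h3
        unfold lamQ
        rw [h3, mul_zero, abs_zero]
        norm_num
      · have hn := (nf_good_eq hF1 hF1 hQ hone hp hpQ).1
        have h3 := co_pow (Q := Q) hp 0
        rw [zero_add, pow_one, if_neg hpQ] at h3
        unfold lamQ
        rw [h3, mul_one]
        exact nf_good hF1 hp hn
  choose! m g hdec using fun (d : ℤ) (hd : Squarefree d) => decomp hQ0 h2 d hd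
  have hcoN : ∀ d : ℤ, Squarefree d → (m d).Coprime (N (g d)) := by
    intro d hd
    obtain ⟨-, -, -, hmQ, hg0, hgQ, -⟩ := hdec d hd
    refine Nat.coprime_of_dvd fun p hp h1 h3 => ?_
    have hpQ : ¬ p ∣ Q := fun h4 => by
      have := Nat.dvd_gcd h1 h4
      rw [hmQ] at this
      exact hp.ne_one (Nat.dvd_one.1 this)
    exact (nf_good_eq hF1 (hF (g d) hg0) hQ hgQ hp hpQ).2.1 h3
  choose! w hw using fun (d : ℤ) (hd : Squarefree d) =>
    hT _ _ _ _ (hF (g d) (hdec d hd).2.2.2.2.1) (m d) (hdec d hd).2.1 (hdec d hd).2.2.1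
      (hcoN d hd)
  set c : ℝ := Q + (∑ j ∈ Finset.Icc (-(Q : ℤ)) Q, Real.sqrt (N j)) + SS ^ Q.primeFactors.card
    with hc
  have hQ1 : (1 : ℝ) ≤ Q := by exact_mod_cast hQ0
  have hsum0 : 0 ≤ ∑ j ∈ Finset.Icc (-(Q : ℤ)) Q, Real.sqrt (N j) :=
    Finset.sum_nonneg fun _ _ => Real.sqrt_nonneg _
  have hSS0 : 0 ≤ SS ^ Q.primeFactors.card := pow_nonneg (by linarith [one_le_SS]) _
  have hcQ : (Q : ℝ) ≤ c := by rw [hc]; linarith
  have hcS : SS ^ Q.primeFactors.card ≤ c := by rw [hc]; linarith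
  have hcN : ∀ d : ℤ, Squarefree d → Real.sqrt (N (g d)) ≤ c := by
    intro d hd
    obtain ⟨-, -, -, -, -, -, hgQ⟩ := hdec d hd
    have h1 : g d ∈ Finset.Icc (-(Q : ℤ)) Q := by
      rw [Finset.mem_Icc]
      exact abs_le.1 hgQ
    have h3 := Finset.single_le_sum (f := fun j => Real.sqrt (N j))
      (fun j _ => Real.sqrt_nonneg _) h1
    rw [hc]
    linarith
  have habs : ∀ d : ℤ, Squarefree d → |(d : ℝ)| = |(g d : ℝ)| * m d := by
    intro d hd
    obtain ⟨he, hodd, -⟩ := hdec d hd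
    have hchi : |((ZMod.χ₄ (m d) : ℤ) : ℝ)| = 1 := by
      have h4 : ZMod.χ₄ (m d) = 1 ∨ ZMod.χ₄ (m d) = -1 := by
        rw [ZMod.χ₄_nat_eq_if_mod_four]
        have := Nat.odd_iff.1 hodd
        rw [if_neg (by omega)]
        split_ifs <;> simp
      rcases h4 with h4 | h4 <;> rw [h4] <;> norm_num
    have h5 : (d : ℝ) = (g d : ℝ) * (((ZMod.χ₄ (m d) : ℤ) : ℝ) * (m d : ℝ)) := by
      exact_mod_cast congrArg (fun x : ℤ => (x : ℝ)) he
    rw [h5, abs_mul, abs_mul, hchi, one_mul, Nat.abs_cast]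
  have hNpos : ∀ d : ℤ, Squarefree d → (1 : ℝ) ≤ Real.sqrt (N (g d)) := by
    intro d hd
    have := (hF (g d) (hdec d hd).2.2.2.2.1).pos
    rw [Real.one_le_sqrt]
    exact_mod_cast this
  refine ⟨{
    hecke := hH
    c := c
    one_le_c := by linarith
    q := fun d => (m d : ℝ) * Real.sqrt (N (g d))
    w := w
    e := fun d => ee (f (g d)) Q (m d)
    e' := fun d => ei (f (g d)) Q (m d)
    q_lower := ?_
    q_upper := ?_
    w_sq := fun d hd => (hw d hd).1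
    e_zero := ?_
    e_sum := ?_
    e'_sum := ?_
    e_inv := ?_
    fe := ?_ }⟩
  · intro d hd
    have hg1 : |(g d : ℝ)| ≤ c := by
      refine le_trans ?_ hcQ
      have := (hdec d hd).2.2.2.2.2.2
      exact_mod_cast this
    rw [habs d hd]
    have h0 : (0 : ℝ) ≤ m d := by positivity
    calc |(g d : ℝ)| * m d ≤ c * m d := mul_le_mul_of_nonneg_right hg1 h0
      _ = c * (m d * 1) := by ring
      _ ≤ c * (m d * Real.sqrt (N (g d))) := by
          refine mul_le_mul_of_nonneg_left ?_ (by linarith)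
          exact mul_le_mul_of_nonneg_left (hNpos d hd) h0
  · intro d hd
    rw [habs d hd]
    have h0 : (0 : ℝ) ≤ m d := by positivity
    have hg1 : (1 : ℝ) ≤ |(g d : ℝ)| := by
      have := Int.one_le_abs (hdec d hd).2.2.2.2.1
      exact_mod_cast this
    calc (m d : ℝ) * Real.sqrt (N (g d)) ≤ m d * c := mul_le_mul_of_nonneg_left (hcN d hd) h0
      _ = c * (1 * m d) := by ring
      _ ≤ c * (|(g d : ℝ)| * m d) := by
          refine mul_le_mul_of_nonneg_left ?_ (by linarith)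
          exact mul_le_mul_of_nonneg_right hg1 h0
  · intro d hd
    have hFd := hF (g d) (hdec d hd).2.2.2.2.1
    exact ⟨(ee_mul hFd Q (m d)).zero, (ppf_mul _).zero⟩
  · intro d hd
    have hFd := hF (g d) (hdec d hd).2.2.2.2.1
    have h := sum_bd (ee_mul hFd Q (m d)) Q hQ0.ne'
      (fun p k hp hpQ => ee_pow' _ hp hpQ k) (fun p k hp => ee_pow_le hFd hp k)
    exact ⟨h.1, h.2.trans hcS⟩
  · intro d hd
    have hFd := hF (g d) (hdec d hd).2.2.2.2.1
    have h := sum_bd (ppf_mul (iu (f (g d)) Q (m d))) Q hQ0.ne'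
      (fun p k hp hpQ => by rw [ppf_pow _ hp]; simp [iu, hpQ])
      (fun p k hp => ei_pow_le hFd hp k)
    exact ⟨h.1, h.2.trans hcS⟩
  · intro d hd n _
    have hFd := hF (g d) (hdec d hd).2.2.2.2.1
    exact cv_ee_ei hFd (hdec d hd).2.2.2.1 n
  · intro d hd z hz
    have hFd := hF (g d) (hdec d hd).2.2.2.2.1
    obtain ⟨he, hodd, hsqm, hmQ, hg0, hgQ, hgle⟩ := hdec d hd
    have key : ∀ n : ℕ, (((∑ x ∈ n.divisorsAntidiagonal, ee (f (g d)) Q (m d) x.1 *
        (lamQ (f 1) Q x.2 * js d x.2)) * Real.sqrt n : ℝ) : ℂ) =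
        coef (f (g d)) n * js n (m d) := by
      intro n
      have h1 := cv_lam hF1 hFd h2 hQ hgQ hodd n
      rw [← he] at h1
      have h3 : ∑ x ∈ n.divisorsAntidiagonal, ee (f (g d)) Q (m d) x.1 *
        (lamQ (f 1) Q x.2 * js d x.2) = nf (f (g d)) n * js n (m d) := h1
      rw [h3]
      rcases Nat.eq_zero_or_pos n with rfl | hn
      · simp [coef_zero]
      · have hs : Real.sqrt n ≠ 0 := (Real.sqrt_pos.2 (by exact_mod_cast hn)).ne'
        rw [coef_eq hFd, ← Complex.ofReal_mul]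
        congr 1
        unfold nf
        field_simp
    have h := (hw d hd).2 z hz
    simp only [key]
    exact h

end Pool.Agent.Y691.QT
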